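import Pool.Agent.LCK.Stmts

/-!
MP_e0fe99_lc, squad LCK, row FIB: the fibre over a configuration (a sphere minus a point).
-/

set_option autoImplicit false

namespace Pool.Agent.LCK.H20

open Pool.Agent.LCK

/-- the condition `Ok` on the sphere around the last vertex -/
theorem ok_iff (adj : ADJStmt) {m : ℕ} {l : Fin (m + 1) → ℝ} (hl : ∀ k, 0 < l k)
    {c : Fin (m + 2) → E3} (hc : c ∈ Conf l) {ε : ℝ} (hε : 0 < ε)
    (hf : ∀ i : Fin m, ∀ z ∈ segment ℝ (c i.castSucc.castSucc) (c i.castSucc.succ),
      ε < dist (c (Fin.last (m + 1))) z) {x : E3} (hx : dist (c (Fin.last (m + 1))) x = ε) :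
    Ok c x ↔ inner ℝ (c (Fin.last m).castSucc - c (Fin.last (m + 1))) (x - c (Fin.last (m + 1))) <
      ‖c (Fin.last m).castSucc - c (Fin.last (m + 1))‖ * ‖x - c (Fin.last (m + 1))‖ := by
  have hab : c (Fin.last m).castSucc ≠ c (Fin.last (m + 1)) := by
    intro h
    have h1 := hc.1 (Fin.last m)
    rw [Fin.succ_last, h, dist_self] at h1
    have := hl (Fin.last m)
    linarith
  have hxb : x ≠ c (Fin.last (m + 1)) := by
    intro h
    rw [h, dist_self] at hx
    linarith
  have key := adj (c (Fin.last m).castSucc) (c (Fin.last (m + 1))) x hab hxb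
  rw [← key]
  constructor
  · intro h
    have h1 := h (Fin.last m)
    rw [Fin.succ_last, if_pos (by simp)] at h1
    exact h1
  · intro h i
    refine Fin.lastCases ?_ (fun j => ?_) i
    · rw [Fin.succ_last, if_pos (by simp)]
      exact h
    · have hne : ¬ ((j.castSucc : Fin (m + 1)) : ℕ) + 1 = m + 1 := by
        have := j.2
        simp only [Fin.val_castSucc]
        omega
      rw [if_neg hne, Set.eq_empty_iff_forall_notMem]
      rintro z ⟨hz1, hz2⟩
      have h2 := hf j z hz1
      have h3 : dist (c (Fin.last (m + 1))) z ≤ dist (c (Fin.last (m + 1))) x := by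
        obtain ⟨a, b, ha, hb, hab', rfl⟩ := hz2
        have e1 : a • c (Fin.last (m + 1)) + b • x - c (Fin.last (m + 1)) =
            b • (x - c (Fin.last (m + 1))) := by
          have : a = 1 - b := by linarith
          rw [this, sub_smul, one_smul, smul_sub]
          abel
        rw [dist_comm, dist_eq_norm, e1, norm_smul, Real.norm_eq_abs, abs_of_nonneg hb,
          dist_comm, dist_eq_norm]
        have : 0 ≤ ‖x - c (Fin.last (m + 1))‖ := norm_nonneg _
        nlinarith
      linarith

theorem fib (adj : ADJStmt) : FIBStmt := by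
  intro m l hl c hc ε hε hf
  obtain ⟨b, hb⟩ : ∃ b, b = c (Fin.last (m + 1)) := ⟨_, rfl⟩
  obtain ⟨a, ha⟩ : ∃ a, a = c (Fin.last m).castSucc := ⟨_, rfl⟩
  have hL : dist a b = l (Fin.last m) := by
    have h1 := hc.1 (Fin.last m)
    rw [Fin.succ_last, ← hb, ← ha] at h1
    exact h1
  have hL0 := hl (Fin.last m)
  have hn : ‖a - b‖ = l (Fin.last m) := by rw [← dist_eq_norm, hL]
  have hiff : ∀ x : E3, dist b x = ε → (Ok c x ↔ inner ℝ (a - b) (x - b) < ‖a - b‖ * ‖x - b‖) := by
    intro x hx
    rw [ha, hb]
    rw [hb] at hx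
    exact ok_iff adj hl hc hε hf hx
  rw [← hb, ← ha]
  constructor
  · -- unit vector
    obtain ⟨e, he⟩ : ∃ e : E3, e = (l (Fin.last m))⁻¹ • (a - b) := ⟨_, rfl⟩
    have he1 : ‖e‖ = 1 := by
      rw [he, norm_smul, hn, Real.norm_eq_abs, abs_of_pos (inv_pos.2 hL0)]
      exact inv_mul_cancel₀ hL0.ne'
    have hae : a - b = (l (Fin.last m)) • e := by
      rw [he, smul_smul, mul_inv_cancel₀ hL0.ne', one_smul]
    have hset : {x : E3 | dist b x = ε ∧ Ok c x} =
        (fun w : (ℝ ∙ e)ᗮ => b + ε • (((stereographic he1).symm w : Metric.sphere (0 : E3) 1) : E3)) ''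
          Set.univ := by
      ext x
      constructor
      · rintro ⟨hx1, hx2⟩
        have h1 := (hiff x hx1).1 hx2
        have hxn : ‖x - b‖ = ε := by rw [← hx1, dist_comm, dist_eq_norm]
        rw [hae, norm_smul, he1, Real.norm_eq_abs, abs_of_pos hL0, hxn, real_inner_smul_left] at h1
        have hy : ε⁻¹ • (x - b) ∈ Metric.sphere (0 : E3) 1 := by
          rw [mem_sphere_zero_iff_norm, norm_smul, hxn, Real.norm_eq_abs,
            abs_of_pos (inv_pos.2 hε)]
          exact inv_mul_cancel₀ hε.ne'
        have hne : (⟨ε⁻¹ • (x - b), hy⟩ : Metric.sphere (0 : E3) 1) ∈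
            ({⟨e, by simp [he1]⟩}ᶜ : Set (Metric.sphere (0 : E3) 1)) := by
          intro h
          rw [Set.mem_singleton_iff, Subtype.mk.injEq] at h
          have h2 : x - b = ε • e := by
            rw [← h, smul_smul, mul_inv_cancel₀ hε.ne', one_smul]
          rw [h2, real_inner_smul_right, real_inner_self_eq_norm_sq, he1] at h1
          nlinarith
        rw [← range_stereographic_symm he1 (by simp [he1])] at hne
        obtain ⟨w, hw⟩ := hne
        refine ⟨w, Set.mem_univ _, ?_⟩
        show b + ε • (((stereographic he1).symm w : Metric.sphere (0 : E3) 1) : E3) = x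
        rw [hw]
        show b + ε • (ε⁻¹ • (x - b)) = x
        rw [smul_smul, mul_inv_cancel₀ hε.ne', one_smul]
        abel
      · rintro ⟨w, -, rfl⟩
        obtain ⟨y, hy⟩ : ∃ y, y = (stereographic he1).symm w := ⟨_, rfl⟩
        show dist b (b + ε • (((stereographic he1).symm w : Metric.sphere (0 : E3) 1) : E3)) = ε ∧
          Ok c (b + ε • (((stereographic he1).symm w : Metric.sphere (0 : E3) 1) : E3))
        rw [← hy]
        have hyn : ‖(y : E3)‖ = 1 := by simp
        have hmem : y ∈ Set.range (stereographic he1).symm := ⟨w, hy.symm⟩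
        rw [range_stereographic_symm he1 (by simp [he1])] at hmem
        have hye : e ≠ (y : E3) := by
          intro h
          apply hmem
          rw [Set.mem_singleton_iff]
          exact Subtype.ext h.symm
        have hlt := (inner_lt_one_iff_real_of_norm_eq_one he1 hyn).2 hye
        have hd : dist b (b + ε • (y : E3)) = ε := by
          rw [dist_comm, dist_eq_norm, add_sub_cancel_left, norm_smul, hyn, Real.norm_eq_abs,
            abs_of_pos hε, mul_one]
        refine ⟨hd, (hiff _ hd).2 ?_⟩
        rw [add_sub_cancel_left, norm_smul, hyn, hae, norm_smul, he1, Real.norm_eq_abs,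
          Real.norm_eq_abs, abs_of_pos hε, abs_of_pos hL0, real_inner_smul_left,
          real_inner_smul_right, mul_one, mul_one]
        have : 0 < l (Fin.last m) * ε := mul_pos hL0 hε
        nlinarith
    rw [hset]
    refine isPreconnected_univ.image _ (Continuous.continuousOn ?_)
    have hcont : Continuous (stereographic he1).symm := by
      have h1 := (stereographic he1).continuousOn_symm
      rw [stereographic_target] at h1
      exact continuousOn_univ.1 h1
    have h2 : Continuous fun w : (ℝ ∙ e)ᗮ =>
        (((stereographic he1).symm w : Metric.sphere (0 : E3) 1) : E3) :=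
      continuous_subtype_val.comp hcont
    exact continuous_const.add (h2.const_smul ε)
  · have hd : dist b (b + (ε / l (Fin.last m)) • (b - a)) = ε := by
      rw [dist_comm, dist_eq_norm, add_sub_cancel_left, norm_smul, norm_sub_rev, hn,
        Real.norm_eq_abs, abs_of_pos (div_pos hε hL0)]
      field_simp
    refine (hiff _ hd).2 ?_
    have e1 : (ε / l (Fin.last m)) • (b - a) = -((ε / l (Fin.last m)) • (a - b)) := by
      rw [← smul_neg, neg_sub]
    rw [add_sub_cancel_left, e1, norm_neg, norm_smul, inner_neg_right, real_inner_smul_right,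
      real_inner_self_eq_norm_sq, hn, Real.norm_eq_abs, abs_of_pos (div_pos hε hL0)]
    have h1 : 0 < ε / l (Fin.last m) := div_pos hε hL0
    have h2 : 0 < ε / l (Fin.last m) * (l (Fin.last m)) ^ 2 := by positivity
    nlinarith

end Pool.Agent.LCK.H20
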